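import Mathlib

/-! Specialising variables of multivariate polynomials. -/

set_option autoImplicit false

namespace Pool.Agent.Y200.QB

open MvPolynomial

universe u v w

section spec

variable {F : Type u} {F' : Type v} [Field F] [Field F'] [Algebra F F'] {m : ℕ}

/-- put the first variable equal to `a` -/
noncomputable def spec (a : F') : MvPolynomial (Fin (m + 1)) F →ₐ[F] MvPolynomial (Fin m) F' :=
  aeval (Fin.cons (C a) X)

@[simp] theorem spec_X_zero (a : F') : spec (F := F) (m := m) a (X 0) = C a := by
  simp [spec]

@[simp] theorem spec_X_succ (a : F') (j : Fin m) : spec (F := F) a (X j.succ) = X j := by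
  simp [spec]

theorem spec_C (a : F') (r : F) :
    spec (m := m) a (C r : MvPolynomial (Fin (m + 1)) F) = C (algebraMap F F' r) := by
  simp [spec, MvPolynomial.algebraMap_apply]

theorem aeval_spec {K : Type w} [CommRing K] [Algebra F K] [Algebra F' K] [IsScalarTower F F' K]
    (a : F') (z : Fin m → K) (p : MvPolynomial (Fin (m + 1)) F) :
    aeval z (spec a p) = aeval (Fin.cons (algebraMap F' K a) z : Fin (m + 1) → K) p := by
  have h : ((aeval z : MvPolynomial (Fin m) F' →ₐ[F'] K).restrictScalars F).comp (spec a) =
      (aeval (Fin.cons (algebraMap F' K a) z : Fin (m + 1) → K) :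
        MvPolynomial (Fin (m + 1)) F →ₐ[F] K) := by
    apply MvPolynomial.algHom_ext
    intro i
    refine Fin.cases ?_ (fun j => ?_) i
    · simp
    · simp
  exact DFunLike.congr_fun h p

theorem pderiv_spec (a : F') (j : Fin m) (p : MvPolynomial (Fin (m + 1)) F) :
    pderiv j (spec a p) = spec a (pderiv j.succ p) := by
  induction p using MvPolynomial.induction_on with
  | C r => rw [spec_C, pderiv_C, pderiv_C, map_zero]
  | add p q hp hq => rw [map_add, map_add, map_add, map_add, hp, hq]
  | mul_X p i hp =>
    rw [map_mul, pderiv_mul, pderiv_mul, map_add, map_mul, map_mul, hp]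
    congr 1
    refine Fin.cases ?_ (fun l => ?_) i
    · rw [spec_X_zero, pderiv_C, pderiv_X_of_ne (Fin.succ_ne_zero j).symm, map_zero]
    · rw [spec_X_succ]
      by_cases hjl : l = j
      · subst hjl
        rw [pderiv_X_self, pderiv_X_self, map_one]
      · rw [pderiv_X_of_ne hjl, pderiv_X_of_ne (fun h => hjl (Fin.succ_injective _ h)), map_zero]

theorem degreeOf_prod_X_pow {R : Type u} [Field R] (j : Fin m) (d : Fin m → ℕ) :
    degreeOf j (∏ i, (X i : MvPolynomial (Fin m) R) ^ (d i)) ≤ d j := by
  refine (degreeOf_prod_le j _ _).trans ?_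
  have h : ∀ i ∈ (Finset.univ : Finset (Fin m)),
      degreeOf j ((X i : MvPolynomial (Fin m) R) ^ (d i)) ≤ if i = j then d j else 0 := by
    intro i _
    refine (degreeOf_pow_le _ _ _).trans ?_
    rw [degreeOf_X]
    by_cases hij : i = j
    · subst hij
      simp
    · rw [if_neg (fun h => hij h.symm), if_neg hij]
      simp
  refine (Finset.sum_le_sum h).trans ?_
  simp

theorem degreeOf_spec (a : F') (j : Fin m) (p : MvPolynomial (Fin (m + 1)) F) :
    degreeOf j (spec a p) ≤ degreeOf j.succ p := by
  have h1 : spec a p = ∑ d ∈ p.support, spec a (monomial d (coeff d p)) := by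
    conv_lhs => rw [← MvPolynomial.support_sum_monomial_coeff p]
    rw [map_sum]
  rw [h1]
  refine (degreeOf_sum_le _ _ _).trans ?_
  refine Finset.sup_le (fun d hd => ?_)
  refine le_trans ?_ (MvPolynomial.monomial_le_degreeOf j.succ hd)
  have h2 : spec a (monomial d (coeff d p)) =
      C (algebraMap F F' (coeff d p) * a ^ d 0) * ∏ i : Fin m, X i ^ (d i.succ) := by
    rw [MvPolynomial.monomial_eq, map_mul, spec_C, Finsupp.prod_fintype _ _ (fun i => pow_zero _),
      map_prod, Fin.prod_univ_succ]
    simp only [map_pow, spec_X_zero, spec_X_succ, C_mul]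
    ring
  rw [h2]
  exact (degreeOf_C_mul_le _ _ _).trans (degreeOf_prod_X_pow j (fun i => d i.succ))

end spec

section uni

variable {F : Type u} [Field F] {m : ℕ}

/-- the polynomial in the first variable obtained by specialising the others -/
noncomputable def uni (c : Fin m → F) : MvPolynomial (Fin (m + 1)) F →ₐ[F] Polynomial F :=
  aeval (Fin.cons Polynomial.X (fun i => Polynomial.C (c i)))

@[simp] theorem uni_X_zero (c : Fin m → F) : uni c (X 0) = Polynomial.X := by
  simp [uni]

@[simp] theorem uni_X_succ (c : Fin m → F) (j : Fin m) :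
    uni c (X j.succ) = Polynomial.C (c j) := by
  simp [uni]

theorem uni_C (c : Fin m → F) (r : F) : uni c (C r) = Polynomial.C r := by
  simp [uni]

theorem aeval_uni {K : Type w} [CommRing K] [Algebra F K] (c : Fin m → F) (a : K)
    (p : MvPolynomial (Fin (m + 1)) F) :
    Polynomial.aeval a (uni c p) =
      aeval (Fin.cons a (fun i => algebraMap F K (c i)) : Fin (m + 1) → K) p := by
  have h : (Polynomial.aeval a : Polynomial F →ₐ[F] K).comp (uni c) =
      (aeval (Fin.cons a (fun i => algebraMap F K (c i)) : Fin (m + 1) → K) :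
        MvPolynomial (Fin (m + 1)) F →ₐ[F] K) := by
    apply MvPolynomial.algHom_ext
    intro i
    refine Fin.cases ?_ (fun j => ?_) i
    · simp
    · simp
  exact DFunLike.congr_fun h p

theorem eval_uni (c : Fin m → F) (a : F) (p : MvPolynomial (Fin (m + 1)) F) :
    Polynomial.eval a (uni c p) = eval (Fin.cons a c : Fin (m + 1) → F) p := by
  have := aeval_uni c a p
  rw [Polynomial.coe_aeval_eq_eval] at this
  rw [this]
  simp only [Algebra.algebraMap_self, RingHom.id_apply]
  rfl

theorem derivative_uni (c : Fin m → F) (p : MvPolynomial (Fin (m + 1)) F) :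
    Polynomial.derivative (uni c p) = uni c (pderiv 0 p) := by
  induction p using MvPolynomial.induction_on with
  | C r => rw [uni_C, pderiv_C, map_zero, Polynomial.derivative_C]
  | add p q hp hq => rw [map_add, map_add, map_add, map_add, hp, hq]
  | mul_X p i hp =>
    rw [map_mul, Polynomial.derivative_mul, pderiv_mul, map_add, map_mul, map_mul, hp]
    congr 1
    refine Fin.cases ?_ (fun l => ?_) i
    · rw [uni_X_zero, Polynomial.derivative_X, pderiv_X_self, map_one]
    · rw [uni_X_succ, Polynomial.derivative_C, pderiv_X_of_ne (Fin.succ_ne_zero l), map_zero]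

theorem natDegree_uni (c : Fin m → F) (p : MvPolynomial (Fin (m + 1)) F) :
    (uni c p).natDegree ≤ degreeOf 0 p := by
  have h1 : uni c p = ∑ d ∈ p.support, uni c (monomial d (coeff d p)) := by
    conv_lhs => rw [← MvPolynomial.support_sum_monomial_coeff p]
    rw [map_sum]
  rw [h1]
  refine Polynomial.natDegree_sum_le_of_forall_le _ _ (fun d hd => ?_)
  refine le_trans ?_ (MvPolynomial.monomial_le_degreeOf 0 hd)
  have h2 : uni c (monomial d (coeff d p)) =
      Polynomial.C (coeff d p * ∏ i : Fin m, c i ^ (d i.succ)) * Polynomial.X ^ d 0 := by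
    rw [MvPolynomial.monomial_eq, map_mul, uni_C, Finsupp.prod_fintype _ _ (fun i => pow_zero _),
      map_prod, Fin.prod_univ_succ]
    simp only [map_pow, uni_X_zero, uni_X_succ, Polynomial.C_mul, map_prod]
    ring
  rw [h2]
  exact Polynomial.natDegree_C_mul_X_pow_le _ _

/-- a polynomial with vanishing derivative in the first direction does not involve the first
variable -/
theorem aeval_cons_eq_of_pderiv_eq_zero [CharZero F] {K : Type w} [Field K] [Algebra F K]
    (z : Fin m → K) (a b : K) (p : MvPolynomial (Fin (m + 1)) F) (hp : pderiv 0 p = 0) :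
    aeval (Fin.cons a z : Fin (m + 1) → K) p = aeval (Fin.cons b z : Fin (m + 1) → K) p := by
  have : CharZero K := charZero_of_injective_algebraMap (algebraMap F K).injective
  have h1 : ∀ a : K, aeval (Fin.cons a z : Fin (m + 1) → K) p =
      Polynomial.eval a (uni z (map (algebraMap F K) p)) := by
    intro a
    rw [eval_uni, MvPolynomial.eval_map]
    rfl
  have h2 : Polynomial.derivative (uni z (map (algebraMap F K) p)) = 0 := by
    rw [derivative_uni, MvPolynomial.pderiv_map, hp, map_zero, map_zero]
  have h3 := Polynomial.eq_C_of_derivative_eq_zero h2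
  rw [h1 a, h1 b, h3, Polynomial.eval_C, Polynomial.eval_C]

end uni

end Pool.Agent.Y200.QB
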