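import Pool.Agent.Y200.QB.Step
import Pool.Agent.Y200.QB.Spec

/-! The induction on the number of variables. -/

set_option autoImplicit false

namespace Pool.Agent.Y200.QB

open MvPolynomial

universe u v w

theorem indep_split {F : Type u} {K : Type v} [Field F] [Field K] [Algebra F K] {n : ℕ}
    (s : Fin (n + 1) → K) (hs : AlgebraicIndependent F s) :
    Transcendental F (s 0) ∧
      AlgebraicIndependent (IntermediateField.adjoin F {s 0}) (fun i : Fin n => s i.succ) := by
  let e : Fin (n + 1) ≃ Fin n ⊕ PUnit.{1} := (finSuccEquiv n).trans (Equiv.optionEquivSumPUnit _)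
  have h : (Sum.elim (fun i : Fin n => s i.succ) (fun _ : PUnit.{1} => s 0)) ∘ e = s := by
    funext i
    refine Fin.cases ?_ (fun j => ?_) i
    · simp [e]
    · simp [e]
  have h1 : AlgebraicIndependent F (Sum.elim (fun i : Fin n => s i.succ)
      (fun _ : PUnit.{1} => s 0)) := by
    rw [← algebraicIndependent_equiv e, h]
    exact hs
  rw [AlgebraicIndependent.sumElim_iff] at h1
  refine ⟨?_, ?_⟩
  · have := h1.1
    rw [algebraicIndependent_unique_type_iff] at this
    exact this
  · rw [IntermediateField.algebraicIndependent_adjoin_iff]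
    have h2 := h1.2
    rw [Set.range_const] at h2
    exact h2

theorem indep_cons {F : Type u} {F' : Type v} {K : Type w} [Field F] [Field F'] [Field K]
    [Algebra F F'] [Algebra F' K] [Algebra F K] [IsScalarTower F F' K] {n : ℕ}
    (a : F') (ha : Transcendental F a) (x : Fin n → K) (hx : AlgebraicIndependent F' x) :
    AlgebraicIndependent F (Fin.cons (algebraMap F' K a) x : Fin (n + 1) → K) := by
  let e : Fin (n + 1) ≃ Fin n ⊕ PUnit.{1} := (finSuccEquiv n).trans (Equiv.optionEquivSumPUnit _)
  have h1 : AlgebraicIndependent F (fun _ : PUnit.{1} => a) := by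
    rw [algebraicIndependent_unique_type_iff]
    exact ha
  have h2 := h1.sumElim_comp hx
  rw [← algebraicIndependent_equiv e] at h2
  have h : (Sum.elim x (algebraMap F' K ∘ fun _ : PUnit.{1} => a)) ∘ e =
      (Fin.cons (algebraMap F' K a) x : Fin (n + 1) → K) := by
    funext i
    refine Fin.cases ?_ (fun j => ?_) i
    · simp [e]
    · simp [e]
  rw [← h]
  exact h2

/-- the data at a point: a fibre of the conic bundle with a rational point, transversal to the
partial derivatives -/
structure Datum {F : Type u} [Field F] {m : ℕ} (A B C0 : MvPolynomial (Fin m) F) (c : Fin m → F)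
    (t0 y0 : F) : Prop where
  dA : ∀ j, degreeOf j A ≤ 4
  dB : ∀ j, degreeOf j B ≤ 4
  dC : ∀ j, degreeOf j C0 ≤ 4
  hy : y0 ^ 2 = eval c A * t0 ^ 2 + eval c B * t0 + eval c C0
  hA : eval c A ≠ 0
  hd : eval c (B ^ 2 - 4 * A * C0) ≠ 0
  hm : ∀ j, (pderiv j A = 0 ∧ pderiv j B = 0 ∧ pderiv j C0 = 0) ∨
    eval c (A * pderiv j B - B * pderiv j A) ≠ 0 ∨ eval c (A * pderiv j C0 - C0 * pderiv j A) ≠ 0

section

variable {F : Type u} {F' : Type v} [Field F] [Field F'] [Algebra F F'] {m : ℕ}

theorem eval_spec_eq (c : Fin (m + 1) → F) (a : F') (p : MvPolynomial (Fin (m + 1)) F) :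
    eval (fun i => algebraMap F F' (c i.succ)) (spec a p) =
      Polynomial.aeval a (uni (fun i => c i.succ) p) := by
  rw [aeval_uni]
  have h := aeval_spec (K := F') a (fun i => algebraMap F F' (c i.succ)) p
  exact h

theorem eval_uni_tail (c : Fin (m + 1) → F) (p : MvPolynomial (Fin (m + 1)) F) :
    Polynomial.eval (c 0) (uni (fun i => c i.succ) p) = eval c p := by
  rw [eval_uni]
  congr 2
  exact Fin.cons_self_tail c

theorem eval_spec_ne (c : Fin (m + 1) → F) (a : F') (ha : Transcendental F a)
    (p : MvPolynomial (Fin (m + 1)) F) (hp : eval c p ≠ 0) :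
    eval (fun i => algebraMap F F' (c i.succ)) (spec a p) ≠ 0 := by
  rw [eval_spec_eq]
  intro h
  apply hp
  rw [← eval_uni_tail, show uni (fun i => c i.succ) p = 0 from ?_, Polynomial.eval_zero]
  by_contra hne
  exact ha ⟨_, hne, h⟩

theorem Datum.spec {A B C0 : MvPolynomial (Fin (m + 1)) F} {c : Fin (m + 1) → F} {t0 y0 : F}
    (h : Datum A B C0 c t0 y0) (a : F') (ha : Transcendental F a) (t1 y1 : F')
    (h1 : y1 ^ 2 = eval (fun i => algebraMap F F' (c i.succ)) (spec a A) * t1 ^ 2 +
      eval (fun i => algebraMap F F' (c i.succ)) (QB.spec a B) * t1 +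
      eval (fun i => algebraMap F F' (c i.succ)) (QB.spec a C0)) :
    Datum (QB.spec a A) (QB.spec a B) (QB.spec a C0) (fun i => algebraMap F F' (c i.succ))
      t1 y1 where
  dA j := (degreeOf_spec a j A).trans (h.dA _)
  dB j := (degreeOf_spec a j B).trans (h.dB _)
  dC j := (degreeOf_spec a j C0).trans (h.dC _)
  hy := h1
  hA := eval_spec_ne c a ha A h.hA
  hd := by
    have h2 := eval_spec_ne c a ha _ h.hd
    have e4 : QB.spec (m := m) a (4 : MvPolynomial (Fin (m + 1)) F) = 4 := map_ofNat _ 4
    rw [map_sub, map_mul, map_mul, map_pow, e4] at h2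
    exact h2
  hm j := by
    rcases h.hm j.succ with h2 | h2 | h2
    · left
      rw [pderiv_spec, pderiv_spec, pderiv_spec, h2.1, h2.2.1, h2.2.2, map_zero]
      exact ⟨rfl, rfl, rfl⟩
    · right
      left
      have h3 := eval_spec_ne c a ha _ h2
      rw [map_sub, map_mul, map_mul, ← pderiv_spec, ← pderiv_spec] at h3
      exact h3
    · right
      right
      have h3 := eval_spec_ne c a ha _ h2
      rw [map_sub, map_mul, map_mul, ← pderiv_spec, ← pderiv_spec] at h3
      exact h3

end

/-- Taylor expansion of a quartic polynomial -/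
theorem aeval_add_quartic {F : Type u} {K : Type v} [Field F] [Field K] [Algebra F K]
    (p : Polynomial F) (hp : p.natDegree ≤ 4) (c : F) (ξ : K) :
    Polynomial.aeval (algebraMap F K c + ξ) p =
      algebraMap F K ((Polynomial.taylor c p).coeff 0) +
      algebraMap F K ((Polynomial.taylor c p).coeff 1) * ξ +
      algebraMap F K ((Polynomial.taylor c p).coeff 2) * ξ ^ 2 +
      algebraMap F K ((Polynomial.taylor c p).coeff 3) * ξ ^ 3 +
      algebraMap F K ((Polynomial.taylor c p).coeff 4) * ξ ^ 4 := by
  have h1 : Polynomial.aeval (algebraMap F K c + ξ) p =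
      Polynomial.aeval ξ (Polynomial.taylor c p) := by
    rw [Polynomial.taylor_apply, Polynomial.aeval_comp]
    simp [add_comm]
  rw [h1]
  have h2 : (Polynomial.taylor c p).natDegree < 5 := by
    rw [Polynomial.natDegree_taylor]
    omega
  rw [Polynomial.aeval_eq_sum_range' h2]
  simp only [Finset.sum_range_succ, Finset.sum_range_zero, Algebra.smul_def, pow_zero, mul_one,
    pow_one, zero_add]

theorem ind (m : ℕ) : ∀ (F K : Type u) [Field F] [Field K] [Algebra F K] [CharZero F]
    (A B C0 : MvPolynomial (Fin m) F) (c : Fin m → F) (t0 y0 : F), Datum A B C0 c t0 y0 →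
    ∀ s : Fin (m + 1) → K, AlgebraicIndependent F s →
    ∃ (x : Fin m → K) (t y : K), y ^ 2 = aeval x A * t ^ 2 + aeval x B * t + aeval x C0 ∧
      AlgebraicIndependent F (Fin.snoc x t : Fin (m + 1) → K) := by
  induction m with
  | zero =>
    intro F K _ _ _ _ A B C0 c t0 y0 h s hs
    have hs0 : Transcendental F (s 0) := (indep_split s hs).1
    have e : ∀ p : MvPolynomial (Fin 0) F, ∀ x : Fin 0 → K,
        aeval x p = algebraMap F K (eval c p) := by
      intro p x
      rw [MvPolynomial.eq_C_of_isEmpty p]
      simp
    have hd := h.hd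
    have e4 : eval c (4 : MvPolynomial (Fin 0) F) = 4 := map_ofNat _ 4
    rw [map_sub, map_mul, map_mul, map_pow, e4] at hd
    obtain ⟨t1, Y1, h1, h2⟩ := conic_param (s 0) hs0 (eval c A) (eval c B) (eval c C0) t0 y0 hd h.hy
    refine ⟨Fin.elim0, t1, Y1, ?_, ?_⟩
    · rw [e, e, e]
      exact h2
    · have h5 : AlgebraicIndependent F (fun _ : Fin 1 => t1) :=
        algebraicIndependent_unique_type_iff.2 h1
      have h6 : (Fin.snoc Fin.elim0 t1 : Fin (0 + 1) → K) = fun _ => t1 := by
        funext i
        have h7 : i = Fin.last 0 := Fin.ext (by omega)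
        rw [h7]
        exact Fin.snoc_last _ _
      rw [h6]
      exact h5
  | succ m ih =>
    intro F K _ _ _ _ A B C0 c t0 y0 h s hs
    obtain ⟨hs0, hs1⟩ := indep_split s hs
    let F' := IntermediateField.adjoin F {s 0}
    have hF'0 : CharZero F' := charZero_of_injective_algebraMap (algebraMap F F').injective
    let g : F' := ⟨s 0, IntermediateField.subset_adjoin _ _ rfl⟩
    have hg : Transcendental F g := by
      intro halg
      apply hs0
      have h3 := halg.algebraMap (A := K)
      exact h3
    obtain ⟨a, t1, y1, ha, h1⟩ : ∃ a t1 y1 : F', Transcendental F a ∧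
        y1 ^ 2 = eval (fun i => algebraMap F F' (c i.succ)) (spec a A) * t1 ^ 2 +
          eval (fun i => algebraMap F F' (c i.succ)) (spec a B) * t1 +
          eval (fun i => algebraMap F F' (c i.succ)) (spec a C0) := by
      by_cases hcase : pderiv 0 A = 0 ∧ pderiv 0 B = 0 ∧ pderiv 0 C0 = 0
      · have e : ∀ p : MvPolynomial (Fin (m + 1)) F, pderiv 0 p = 0 →
            eval (fun i => algebraMap F F' (c i.succ)) (spec g p) = algebraMap F F' (eval c p) := by
          intro p hp
          have h2 := aeval_spec (K := F') g (fun i => algebraMap F F' (c i.succ)) p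
          change eval (fun i => algebraMap F F' (c i.succ)) (spec g p) = _ at h2
          rw [h2, aeval_cons_eq_of_pderiv_eq_zero _ _ (algebraMap F F' (c 0)) p hp]
          have h3 : (Fin.cons (algebraMap F F' (c 0)) (fun i => algebraMap F F' (c i.succ)) :
              Fin (m + 1) → F') = fun i => algebraMap F F' (c i) := by
            funext i
            refine Fin.cases ?_ (fun j => ?_) i
            · simp
            · simp
          rw [h3]
          change aeval (algebraMap F F' ∘ c) p = _
          rw [MvPolynomial.aeval_algebraMap_apply]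
          rfl
        refine ⟨g, algebraMap F F' t0, algebraMap F F' y0, hg, ?_⟩
        rw [e A hcase.1, e B hcase.2.1, e C0 hcase.2.2, ← map_pow, h.hy]
        simp only [map_add, map_mul, map_pow]
      · obtain ⟨p, hp⟩ : ∃ p : MvPolynomial (Fin (m + 1)) F → Polynomial F,
          p = fun P => Polynomial.taylor (c 0) (uni (fun i => c i.succ) P) := ⟨_, rfl⟩
        have hp0 : ∀ P, (p P).coeff 0 = eval c P := by
          intro P
          rw [hp]
          simp only [Polynomial.taylor_coeff_zero]
          exact eval_uni_tail c P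
        have hp1 : ∀ P, (p P).coeff 1 = eval c (pderiv 0 P) := by
          intro P
          rw [hp]
          simp only [Polynomial.taylor_coeff_one]
          rw [derivative_uni]
          exact eval_uni_tail c _
        let q : ℕ → Polynomial F := fun i =>
          Polynomial.C ((p A).coeff i) * Polynomial.X ^ 2 +
            Polynomial.C ((p B).coeff i) * Polynomial.X + Polynomial.C ((p C0).coeff i)
        have hd := h.hd
        have e4 : eval c (4 : MvPolynomial (Fin (m + 1)) F) = 4 := map_ofNat _ 4
        rw [map_sub, map_mul, map_mul, map_pow, e4] at hd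
        have hdvd : ¬ q 0 ∣ q 1 := by
          rintro ⟨r, hr⟩
          have hA0 : (p A).coeff 0 ≠ 0 := by
            rw [hp0]
            exact h.hA
          have hdeg0 : (q 0).natDegree = 2 := Polynomial.natDegree_quadratic hA0
          have hdeg1 : (q 1).natDegree ≤ 2 := Polynomial.natDegree_quadratic_le
          have hrC : ∃ l, r = Polynomial.C l := by
            by_cases hr0 : r = 0
            · exact ⟨0, by rw [hr0, Polynomial.C_0]⟩
            · have h3 : (q 1).natDegree = (q 0).natDegree + r.natDegree := by
                rw [hr]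
                apply Polynomial.natDegree_mul _ hr0
                intro h4
                rw [h4, Polynomial.natDegree_zero] at hdeg0
                omega
              exact ⟨_, Polynomial.eq_C_of_natDegree_eq_zero (by omega)⟩
          obtain ⟨l, rfl⟩ := hrC
          have c2 := congrArg (fun P => Polynomial.coeff P 2) hr
          have c1 := congrArg (fun P => Polynomial.coeff P 1) hr
          have c0 := congrArg (fun P => Polynomial.coeff P 0) hr
          simp only [q, Polynomial.coeff_mul_C, Polynomial.coeff_add, Polynomial.coeff_C_mul,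
            Polynomial.coeff_X_pow, Polynomial.coeff_X, Polynomial.coeff_C, hp0, hp1] at c2 c1 c0
          norm_num at c2 c1 c0
          rcases h.hm 0 with h2 | h2 | h2
          · exact hcase h2
          · apply h2
            rw [map_sub, map_mul, map_mul, c2, c1]
            ring
          · apply h2
            rw [map_sub, map_mul, map_mul, c2, c0]
            ring
        obtain ⟨t1, ξ, y1, ht1, hξ, hy1⟩ := step g hg (q 0) (q 1) (q 2) (q 3) (q 4)
          (eval c A) (eval c B) (eval c C0) (by simp only [q, hp0]) hd hdvd t0 y0 h.hy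
        have ha : Transcendental F (algebraMap F F' (c 0) + ξ) := by
          intro halg
          apply hξ
          have h3 := halg.sub (isAlgebraic_algebraMap (c 0) : IsAlgebraic F (algebraMap F F' (c 0)))
          simpa using h3
        refine ⟨algebraMap F F' (c 0) + ξ, t1, y1, ha, ?_⟩
        have hdeg : ∀ P : MvPolynomial (Fin (m + 1)) F, degreeOf 0 P ≤ 4 →
            (uni (fun i => c i.succ) P).natDegree ≤ 4 := fun P hP => (natDegree_uni _ P).trans hP
        rw [eval_spec_eq, eval_spec_eq, eval_spec_eq, aeval_add_quartic _ (hdeg A (h.dA 0)),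
          aeval_add_quartic _ (hdeg B (h.dB 0)), aeval_add_quartic _ (hdeg C0 (h.dC 0)), hy1]
        simp only [q, hp, map_add, map_mul, map_pow, Polynomial.aeval_X, Polynomial.aeval_C]
        ring
    obtain ⟨x', t, y, hy, hind⟩ := ih F' K (spec a A) (spec a B) (spec a C0) _ t1 y1
      (h.spec a ha t1 y1 h1) (fun i => s i.succ) hs1
    refine ⟨Fin.cons (a : K) x', t, y, ?_, ?_⟩
    · rw [aeval_spec, aeval_spec, aeval_spec] at hy
      exact hy
    · rw [← Fin.cons_snoc_eq_snoc_cons]
      exact indep_cons a ha _ hind

end Pool.Agent.Y200.QB
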