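import Mathlib

/-! Conics and osculating parabolas: one step of the parametrisation. -/

set_option autoImplicit false

namespace Pool.Agent.Y200.QB

open Polynomial

universe u v

variable {E : Type u} {K : Type v} [Field E] [Field K] [Algebra E K]

/-- a root of a nonzero quadratic polynomial with algebraic coefficients is algebraic -/
theorem isAlgebraic_of_quadratic (s a b c : K) (ha : IsAlgebraic E a) (hb : IsAlgebraic E b)
    (hc : IsAlgebraic E c) (h0 : a ≠ 0 ∨ b ≠ 0 ∨ c ≠ 0) (h : a * s ^ 2 + b * s + c = 0) :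
    IsAlgebraic E s := by
  let L := algebraicClosure E K
  let a' : L := ⟨a, mem_algebraicClosure_iff.mpr ha⟩
  let b' : L := ⟨b, mem_algebraicClosure_iff.mpr hb⟩
  let c' : L := ⟨c, mem_algebraicClosure_iff.mpr hc⟩
  have h1 : IsAlgebraic L s := by
    refine ⟨C a' * X ^ 2 + C b' * X + C c', ?_, ?_⟩
    · intro hp
      have e2 := congrArg (fun p => coeff p 2) hp
      have e1 := congrArg (fun p => coeff p 1) hp
      have e0 := congrArg (fun p => coeff p 0) hp
      simp [coeff_X, coeff_C] at e2 e1 e0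
      rcases h0 with h | h | h
      · exact h (congrArg Subtype.val e2)
      · exact h (congrArg Subtype.val e1)
      · exact h (congrArg Subtype.val e0)
    · simp only [map_add, map_mul, map_pow, aeval_X, aeval_C]
      exact h
  exact h1.restrictScalars E

/-- parametrisation of a conic with a rational point -/
theorem conic_param (s : K) (hs : Transcendental E s) (A B C t0 y0 : E)
    (hd : B ^ 2 - 4 * A * C ≠ 0) (h : y0 ^ 2 = A * t0 ^ 2 + B * t0 + C) :
    ∃ t1 Y1 : K, Transcendental E t1 ∧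
      Y1 ^ 2 = algebraMap E K A * t1 ^ 2 + algebraMap E K B * t1 + algebraMap E K C := by
  have hsA : s ^ 2 - algebraMap E K A ≠ 0 := by
    intro h1
    apply hs
    refine ⟨X ^ 2 - Polynomial.C A, ?_, ?_⟩
    · intro h2
      have e2 := congrArg (fun p => coeff p 2) h2
      simp [coeff_C] at e2
    · simpa using h1
  obtain ⟨τ, hτ⟩ : ∃ τ : K, τ * (s ^ 2 - algebraMap E K A) =
      (2 * algebraMap E K A * algebraMap E K t0 + algebraMap E K B) -
        2 * algebraMap E K y0 * s :=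
    ⟨_, div_mul_cancel₀ _ hsA⟩
  have h' : algebraMap E K y0 ^ 2 = algebraMap E K A * algebraMap E K t0 ^ 2 +
      algebraMap E K B * algebraMap E K t0 + algebraMap E K C := by
    rw [← map_pow, h]
    simp
  refine ⟨algebraMap E K t0 + τ, algebraMap E K y0 + s * τ, ?_, ?_⟩
  · intro halg
    have hτa : IsAlgebraic E τ := by
      have h1 := halg.sub (isAlgebraic_algebraMap t0 : IsAlgebraic E (algebraMap E K t0))
      simpa using h1
    have hb : IsAlgebraic E (2 * algebraMap E K y0) := by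
      have : 2 * algebraMap E K y0 = algebraMap E K (2 * y0) := by
        rw [map_mul, map_ofNat]
      rw [this]
      exact isAlgebraic_algebraMap _
    have hc : IsAlgebraic E (-(algebraMap E K A) * τ -
        (2 * algebraMap E K A * algebraMap E K t0 + algebraMap E K B)) := by
      apply IsAlgebraic.sub
      · apply IsAlgebraic.mul _ hτa
        rw [← map_neg]
        exact isAlgebraic_algebraMap _
      · have : 2 * algebraMap E K A * algebraMap E K t0 + algebraMap E K B =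
            algebraMap E K (2 * A * t0 + B) := by
          rw [map_add, map_mul, map_mul, map_ofNat]
        rw [this]
        exact isAlgebraic_algebraMap _
    refine hs (isAlgebraic_of_quadratic s τ (2 * algebraMap E K y0) _ hτa hb hc ?_ ?_)
    · by_contra hcon
      push Not at hcon
      obtain ⟨h1, h2, h3⟩ := hcon
      rw [h1, mul_zero, zero_sub, neg_eq_zero] at h3
      have h4 : 2 * A * t0 + B = 0 := by
        apply (algebraMap E K).injective
        rw [map_add, map_mul, map_mul, map_ofNat, map_zero]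
        exact h3
      have h5 : 2 * y0 = 0 := by
        apply (algebraMap E K).injective
        rw [map_mul, map_ofNat, map_zero]
        exact h2
      apply hd
      linear_combination (-2 * A * y0) * h5 + (2 * A * t0 + B) * h4 + 4 * A * h
    · linear_combination hτ
  · linear_combination h' + τ * hτ

/-- a rational function of a transcendental element which is algebraic is a constant -/
theorem eq_smul_of_isAlgebraic (t ξ : K) (ht : Transcendental E t) (P D : E[X]) (hD : D ≠ 0)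
    (hξ : ξ * aeval t D = aeval t P) (halg : IsAlgebraic E ξ) :
    ∃ l : E, P = C l * D := by
  let L := algebraicClosure E K
  let ξ' : L := ⟨ξ, mem_algebraicClosure_iff.mpr halg⟩
  have ht' : Transcendental L t := by
    intro h
    exact ht (h.restrictScalars E)
  have h1 : P.map (algebraMap E L) - C ξ' * D.map (algebraMap E L) = 0 := by
    by_contra hne
    apply ht'
    refine ⟨_, hne, ?_⟩
    simp only [map_sub, map_mul, aeval_C, aeval_map_algebraMap]
    rw [← hξ, sub_eq_zero]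
    rfl
  obtain ⟨n, hn⟩ : ∃ n, D.coeff n ≠ 0 := by
    by_contra h
    push Not at h
    exact hD (Polynomial.ext (by simpa using h))
  have h2 : ∀ i, algebraMap E L (P.coeff i) = ξ' * algebraMap E L (D.coeff i) := by
    intro i
    have := congrArg (fun p => coeff p i) h1
    simpa [sub_eq_zero] using this
  have h3 : ξ' = algebraMap E L (P.coeff n / D.coeff n) := by
    rw [map_div₀, h2 n]
    rw [mul_div_cancel_right₀]
    exact (map_ne_zero_iff _ (algebraMap E L).injective).2 hn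
  refine ⟨P.coeff n / D.coeff n, ?_⟩
  ext i
  apply (algebraMap E L).injective
  rw [h2 i, coeff_C_mul, map_mul, ← h3]

/-- The step: let `q₀, …, q₄` be polynomials over `E`, `q₀` quadratic and squarefree, not a divisor
of `q₁`, and let the conic `y² = q₀(t)` have a rational point. Over `E(s)` there are points of
`y² = ∑ qᵢ(t) ξ ^ i` with `t` and `ξ` transcendental over `E`. -/
theorem step [CharZero E] (s : K) (hs : Transcendental E s) (q0 q1 q2 q3 q4 : E[X])
    (A B C0 : E) (hq0 : q0 = C A * X ^ 2 + C B * X + C C0)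
    (hd : B ^ 2 - 4 * A * C0 ≠ 0) (hdvd : ¬ q0 ∣ q1) (t0 y0 : E)
    (h : y0 ^ 2 = A * t0 ^ 2 + B * t0 + C0) :
    ∃ t1 ξ y1 : K, Transcendental E t1 ∧ Transcendental E ξ ∧
      y1 ^ 2 = aeval t1 q0 + aeval t1 q1 * ξ + aeval t1 q2 * ξ ^ 2 + aeval t1 q3 * ξ ^ 3 +
        aeval t1 q4 * ξ ^ 4 := by
  have : CharZero K := charZero_of_injective_algebraMap (algebraMap E K).injective
  have hq00 : q0 ≠ 0 := by
    intro h0
    apply hd
    have e2 := congrArg (fun p => coeff p 2) (hq0.symm.trans h0)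
    have e1 := congrArg (fun p => coeff p 1) (hq0.symm.trans h0)
    simp [coeff_X, coeff_C] at e2 e1
    rw [e1, e2]
    ring
  have hsq : Squarefree q0 := by
    apply Separable.squarefree
    have hder : derivative q0 = C (2 * A) * X + C B := by
      rw [hq0]
      simp only [derivative_add, derivative_mul, derivative_C, zero_mul, derivative_X_pow,
        derivative_X, zero_add, add_zero, Nat.cast_ofNat, Nat.add_one_sub_one, pow_one, mul_one,
        map_mul]
      ring
    refine ⟨C (-(4 * A) * (B ^ 2 - 4 * A * C0)⁻¹),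
      C ((B ^ 2 - 4 * A * C0)⁻¹) * (C (2 * A) * X + C B), ?_⟩
    rw [hder, hq0]
    have h1 : C ((B ^ 2 - 4 * A * C0)⁻¹) * C (B ^ 2 - 4 * A * C0) = (1 : E[X]) := by
      rw [← C_mul, inv_mul_cancel₀ hd, C_1]
    have e4 : (C 4 : E[X]) = 4 := map_ofNat C 4
    have e2 : (C 2 : E[X]) = 2 := map_ofNat C 2
    simp only [map_mul, map_neg, map_sub, map_pow, e4, e2] at h1 ⊢
    linear_combination h1
  obtain ⟨t1, Y1, ht1, hY1⟩ := conic_param s hs A B C0 t0 y0 hd h
  have ha0 : aeval t1 q0 = Y1 ^ 2 := by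
    rw [hq0, hY1]
    simp
  have ha0' : aeval t1 q0 ≠ 0 := fun h0 => ht1 ⟨q0, hq00, h0⟩
  have hY0 : Y1 ≠ 0 := by
    rintro rfl
    apply ha0'
    rw [ha0]
    ring
  obtain ⟨N, hN⟩ : ∃ N, N = C 8 * q0 ^ 2 * q3 - C 4 * q0 * q1 * q2 + q1 ^ 3 := ⟨_, rfl⟩
  obtain ⟨D, hD⟩ : ∃ D, D = C 64 * q0 ^ 3 * q4 - (C 4 * q0 * q2 - q1 ^ 2) ^ 2 := ⟨_, rfl⟩
  have hdvd4 : ∀ l : E, l ≠ 0 → ¬ q0 ∣ C l * q1 ^ 4 := by
    intro l hl hh
    have h1 : q0 ∣ q1 ^ 4 := by
      have h2 : q1 ^ 4 = C l⁻¹ * (C l * q1 ^ 4) := by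
        rw [← mul_assoc, ← C_mul, inv_mul_cancel₀ hl, C_1, one_mul]
      rw [h2]
      exact Dvd.dvd.mul_left hh _
    exact hdvd ((hsq.dvd_pow_iff_dvd (by norm_num)).1 h1)
  have hD0 : D ≠ 0 := by
    intro h0
    apply hdvd4 1 one_ne_zero
    refine ⟨C 64 * q0 ^ 2 * q4 - C 16 * q0 * q2 ^ 2 + C 8 * q2 * q1 ^ 2, ?_⟩
    have h1 : (C 4 : E[X]) = 4 := map_ofNat C 4
    have h2 : (C 8 : E[X]) = 8 := map_ofNat C 8
    have h3 : (C 16 : E[X]) = 16 := map_ofNat C 16
    have h4 : (C 64 : E[X]) = 64 := map_ofNat C 64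
    rw [hD, h1, h4] at h0
    rw [C_1, h2, h3, h4]
    linear_combination -h0
  have hD1 : aeval t1 D ≠ 0 := fun h0 => ht1 ⟨D, hD0, h0⟩
  obtain ⟨ξ, hξ⟩ : ∃ ξ : K, ξ * aeval t1 D = aeval t1 (-(C 8 * q0 * N)) :=
    ⟨_, div_mul_cancel₀ _ hD1⟩
  refine ⟨t1, ξ, (aeval t1 q0 + aeval t1 q1 * ξ / 2 + (4 * aeval t1 q0 * aeval t1 q2 -
    aeval t1 q1 ^ 2) * ξ ^ 2 / (8 * aeval t1 q0)) / Y1, ht1, ?_, ?_⟩
  · intro halg
    obtain ⟨l, hl⟩ := eq_smul_of_isAlgebraic t1 ξ ht1 _ D hD0 hξ halg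
    have h1 : (C 4 : E[X]) = 4 := map_ofNat C 4
    have h2 : (C 8 : E[X]) = 8 := map_ofNat C 8
    have h3 : (C 16 : E[X]) = 16 := map_ofNat C 16
    have h4 : (C 64 : E[X]) = 64 := map_ofNat C 64
    by_cases hl0 : l = 0
    · rw [hl0, C_0, zero_mul, neg_eq_zero] at hl
      have hN0 : N = 0 := by
        have h5 : C (8 : E) * q0 ≠ 0 := mul_ne_zero (by simp) hq00
        exact (mul_eq_zero.1 hl).resolve_left h5
      have h6 : q0 ∣ q1 ^ 3 := by
        refine ⟨C 4 * q1 * q2 - C 8 * q0 * q3, ?_⟩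
        rw [hN] at hN0
        linear_combination hN0
      exact hdvd ((hsq.dvd_pow_iff_dvd (by norm_num)).1 h6)
    · apply hdvd4 l hl0
      refine ⟨C l * (C 64 * q0 ^ 2 * q4 - C 16 * q0 * q2 ^ 2 + C 8 * q2 * q1 ^ 2) + C 8 * N, ?_⟩
      rw [hD, h1, h4, h2] at hl
      rw [h2, h3, h4]
      linear_combination hl
  · have h5 : ξ * (64 * aeval t1 q0 ^ 3 * aeval t1 q4 - (4 * aeval t1 q0 * aeval t1 q2 -
        aeval t1 q1 ^ 2) ^ 2) = -(8 * aeval t1 q0 * (8 * aeval t1 q0 ^ 2 * aeval t1 q3 -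
          4 * aeval t1 q0 * aeval t1 q1 * aeval t1 q2 + aeval t1 q1 ^ 3)) := by
      have h6 := hξ
      have e1 : (C 4 : E[X]) = 4 := map_ofNat C 4
      have e2 : (C 8 : E[X]) = 8 := map_ofNat C 8
      have e4 : (C 64 : E[X]) = 64 := map_ofNat C 64
      rw [hN, hD, e1, e2, e4] at h6
      simpa only [map_sub, map_add, map_neg, map_mul, map_pow, map_ofNat] using h6
    rw [div_pow, ← ha0]
    obtain ⟨a0, e0⟩ : ∃ a, a = aeval t1 q0 := ⟨_, rfl⟩
    obtain ⟨a1, e1⟩ : ∃ a, a = aeval t1 q1 := ⟨_, rfl⟩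
    obtain ⟨a2, e2⟩ : ∃ a, a = aeval t1 q2 := ⟨_, rfl⟩
    obtain ⟨a3, e3⟩ : ∃ a, a = aeval t1 q3 := ⟨_, rfl⟩
    obtain ⟨a4, e4⟩ : ∃ a, a = aeval t1 q4 := ⟨_, rfl⟩
    rw [← e0, ← e1, ← e2, ← e3, ← e4] at h5 ⊢
    rw [← e0] at ha0'
    have hnum : a0 + a1 * ξ / 2 + (4 * a0 * a2 - a1 ^ 2) * ξ ^ 2 / (8 * a0) =
        (8 * a0 ^ 2 + 4 * a0 * a1 * ξ + (4 * a0 * a2 - a1 ^ 2) * ξ ^ 2) / (8 * a0) := by
      field_simp
      ring
    have h8 : (8 * a0) ^ 2 ≠ 0 := pow_ne_zero _ (mul_ne_zero (by norm_num) ha0')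
    rw [hnum, div_pow, div_div, div_eq_iff (mul_ne_zero h8 ha0')]
    linear_combination (-ξ ^ 3) * h5

end Pool.Agent.Y200.QB
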